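import Pool.Agent.H365Orth.Vecs

set_option autoImplicit false

namespace H365Orth

open Finset

theorem main_bound (m : ℕ) : ∃ c : ℝ, 0 < c ∧ ∃ N : ℕ, ∀ n : ℕ, N ≤ n →
    ∃ v : Fin n → EuclideanSpace ℝ (Fin n), (∀ i, ‖v i‖ = 1) ∧
      (∀ K : Finset (Fin n), K.card = m + 3 → ∃ i ∈ K, ∃ j ∈ K, i ≠ j ∧ inner ℝ (v i) (v j) = 0) ∧
      c * (n : ℝ) ^ ((3 * (m : ℝ) + 5) / (4 * ((m : ℝ) + 2))) ≤ ‖∑ i, v i‖ := by
  set β : ℝ := (3 * (m : ℝ) + 5) / 4 with hβ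
  have hβ0 : 0 ≤ β := by positivity
  refine ⟨(1 / 2) ^ β / 3, by positivity, 8 ^ (m + 2), fun n hn => ?_⟩
  have hnR : (8 : ℝ) ^ (m + 2) ≤ n := by exact_mod_cast hn
  have hn0 : (0 : ℝ) < n := lt_of_lt_of_le (by positivity) hnR
  have hm2 : (0 : ℝ) < (m : ℝ) + 2 := by positivity
  set y0 : ℝ := (n : ℝ) ^ (1 / ((m : ℝ) + 2)) with hy0
  have hy0pos : 0 < y0 := by positivity
  have hy0pow : y0 ^ (m + 2) = n := by
    rw [hy0, ← Real.rpow_natCast, ← Real.rpow_mul hn0.le]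
    push_cast
    rw [one_div_mul_cancel hm2.ne', Real.rpow_one]
  have hy08 : 8 ≤ y0 := by
    by_contra h
    push Not at h
    have : y0 ^ (m + 2) < 8 ^ (m + 2) := pow_lt_pow_left₀ h hy0pos.le (by omega)
    rw [hy0pow] at this
    linarith
  set y : ℕ := ⌊y0⌋₊ with hy
  have hyle : (y : ℝ) ≤ y0 := Nat.floor_le hy0pos.le
  have hylt : y0 < y + 1 := Nat.lt_floor_add_one _
  have hy7 : 8 ≤ y := Nat.le_floor (by exact_mod_cast hy08)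
  obtain ⟨p, hpp, hp1, hp2⟩ := Nat.exists_prime_lt_and_le_two_mul (y / 2) (by omega)
  have hpy : p ≤ y := by omega
  haveI : Fact p.Prime := ⟨hpp⟩
  have hpyR : (p : ℝ) ≤ y0 := le_trans (by exact_mod_cast hpy) hyle
  have hpl : y0 / 2 ≤ p := by
    have : y + 1 ≤ 2 * p := by omega
    have : (y : ℝ) + 1 ≤ 2 * p := by exact_mod_cast this
    linarith
  have hp5 : 5 ≤ p := by omega
  have h2 : (2 : ZMod p) ≠ 0 := by
    intro h
    have h' : ((2 : ℕ) : ZMod p) = 0 := by exact_mod_cast h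
    rw [ZMod.natCast_eq_zero_iff] at h'
    have := Nat.le_of_dvd (by norm_num) h'
    omega
  have hchar : ringChar (ZMod p) ≠ 2 := by
    rw [ZMod.ringChar_zmod_n]; omega
  obtain ⟨g, hg⟩ := FiniteField.exists_nonsquare (F := ZMod p) hchar
  have hcard : Fintype.card (Par p m) = (p - 1) * p ^ (m + 1) := by
    rw [Fintype.card_prod, ZMod.card_units_eq_totient, Nat.totient_prime hpp, Fintype.card_fun, ZMod.card,
      Fintype.card_option, Fintype.card_fin]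
  have hP0 : (0 : ℝ) < p := by exact_mod_cast hpp.pos
  have hle : Fintype.card (Par p m) ≤ n := by
    rw [hcard]
    have h3 : (p - 1) * p ^ (m + 1) ≤ p ^ (m + 2) := by
      calc (p - 1) * p ^ (m + 1) ≤ p * p ^ (m + 1) := Nat.mul_le_mul_right _ (Nat.sub_le _ _)
        _ = p ^ (m + 2) := by ring
    have h4 : ((p ^ (m + 2) : ℕ) : ℝ) ≤ (n : ℝ) := by
      push_cast
      rw [← hy0pow]
      exact pow_le_pow_left₀ hP0.le hpyR _
    have h5 : p ^ (m + 2) ≤ n := by exact_mod_cast h4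
    omega
  obtain ⟨v, hv1, hv2, hv3⟩ := exists_vectors g hg h2 m n hle
  refine ⟨v, hv1, hv2, ?_⟩
  set S : ℝ := ‖∑ i, v i‖ with hS
  have hS0 : 0 ≤ S := norm_nonneg _
  have hN0 : (p : ℝ) ^ (m + 2) / 2 ≤ (Fintype.card (Par p m) : ℝ) := by
    rw [hcard]
    push_cast [Nat.cast_sub hpp.one_lt.le]
    have h5 : (5 : ℝ) ≤ p := by exact_mod_cast hp5
    have h6 : (0 : ℝ) < (p : ℝ) ^ (m + 1) := by positivity
    calc (p : ℝ) ^ (m + 2) / 2 = (p / 2) * p ^ (m + 1) := by ring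
      _ ≤ (p - 1) * p ^ (m + 1) := mul_le_mul_of_nonneg_right (by linarith) h6.le
  have hN1 : ((p : ℝ) ^ (m + 2)) ^ 2 / 4 ≤ 2 * √((p : ℝ) ^ (m + 3)) * S ^ 2 := by
    calc ((p : ℝ) ^ (m + 2)) ^ 2 / 4 = ((p : ℝ) ^ (m + 2) / 2) ^ 2 := by ring
      _ ≤ (Fintype.card (Par p m) : ℝ) ^ 2 := pow_le_pow_left₀ (by positivity) hN0 2
      _ ≤ _ := hv3
  have hsq : √((p : ℝ) ^ (m + 3)) = (p : ℝ) ^ (((m : ℝ) + 3) / 2) := by
    rw [Real.sqrt_eq_rpow, ← Real.rpow_natCast, ← Real.rpow_mul hP0.le]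
    congr 1; push_cast; ring
  have hpow : ((p : ℝ) ^ (m + 2)) ^ 2 = ((p : ℝ) ^ β) ^ 2 * (p : ℝ) ^ (((m : ℝ) + 3) / 2) := by
    rw [← pow_mul, ← Real.rpow_natCast, ← Real.rpow_natCast ((p : ℝ) ^ β), ← Real.rpow_mul hP0.le,
      ← Real.rpow_add hP0]
    congr 1; push_cast; rw [hβ]; ring
  have hkey : ((p : ℝ) ^ β) ^ 2 ≤ 8 * S ^ 2 := by
    rw [hsq, hpow] at hN1
    have hq : (0 : ℝ) < (p : ℝ) ^ (((m : ℝ) + 3) / 2) := by positivity
    have : ((p : ℝ) ^ β) ^ 2 * (p : ℝ) ^ (((m : ℝ) + 3) / 2) ≤ (8 * S ^ 2) * (p : ℝ) ^ (((m : ℝ) + 3) / 2) := by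
      linarith
    exact le_of_mul_le_mul_right this hq
  have hlow : (y0 / 2) ^ β ≤ (p : ℝ) ^ β := Real.rpow_le_rpow (by positivity) hpl hβ0
  have hfin : (y0 / 2) ^ β / 3 ≤ S := by
    have h7 : (0 : ℝ) ≤ (y0 / 2) ^ β := by positivity
    have h8 : ((y0 / 2) ^ β / 3) ^ 2 ≤ S ^ 2 := by nlinarith [pow_le_pow_left₀ h7 hlow 2]
    exact (pow_le_pow_iff_left₀ (by positivity) hS0 (by norm_num : (2:ℕ) ≠ 0)).1 h8
  have hexp : (n : ℝ) ^ ((3 * (m : ℝ) + 5) / (4 * ((m : ℝ) + 2))) = y0 ^ β := by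
    rw [hy0, ← Real.rpow_mul hn0.le]
    congr 1; rw [hβ]; field_simp
  rw [hexp]
  calc (1 / 2) ^ β / 3 * y0 ^ β = (y0 / 2) ^ β / 3 := by
        rw [show y0 / 2 = (1 / 2) * y0 by ring, Real.mul_rpow (by norm_num) hy0pos.le]; ring
    _ ≤ S := hfin

end H365Orth
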