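import Pool.Agent.H365Orth.Par

set_option autoImplicit false

namespace H365Orth

open Finset Matrix
open scoped MatrixOrder

theorem exists_gram {n : ℕ} (M : Matrix (Fin n) (Fin n) ℝ) (hM : M.PosSemidef) :
    ∃ v : Fin n → EuclideanSpace ℝ (Fin n), ∀ i j, inner ℝ (v i) (v j) = M i j := by
  obtain ⟨R, hR⟩ := CStarAlgebra.nonneg_iff_eq_star_mul_self.mp hM.nonneg
  refine ⟨fun j => WithLp.toLp 2 (fun i => R i j), fun i j => ?_⟩
  rw [hR, Matrix.star_eq_conjTranspose, Matrix.mul_apply]
  simp [PiLp.inner_apply, Matrix.conjTranspose_apply, mul_comm]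

variable {p : ℕ} [Fact p.Prime]

theorem no_clique (g : ZMod p) (hg : ¬ IsSquare g) {m : ℕ} (x : Ix m → Vec p m)
    (h1 : ∀ a, B g (x a) (x a) = 1) (h0 : ∀ a b, a ≠ b → B g (x a) (x b) = 0) : False := by
  have h : (Matrix.of x) * Matrix.diagonal (D g m) * (Matrix.of x)ᵀ = 1 := by
    ext a b
    rw [Matrix.mul_apply]
    have e : ∑ i, ((Matrix.of x) * Matrix.diagonal (D g m)) a i * (Matrix.of x)ᵀ i b = B g (x a) (x b) := by
      unfold B
      refine sum_congr rfl (fun i _ => ?_)
      rw [Matrix.mul_diagonal, Matrix.transpose_apply, Matrix.of_apply, Matrix.of_apply]; ring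
    rw [e]
    by_cases hab : a = b
    · subst hab; rw [h1, Matrix.one_apply_eq]
    · rw [h0 a b hab, Matrix.one_apply_ne hab]
  have hd := congrArg Matrix.det h
  rw [Matrix.det_mul, Matrix.det_mul, Matrix.det_transpose, Matrix.det_diagonal, Matrix.det_one] at hd
  have hD : ∏ i, D g m i = g := by
    rw [Fintype.prod_option, Fintype.prod_option, Fintype.prod_option]
    simp [D]
  rw [hD] at hd
  have hne : (Matrix.of x).det ≠ 0 := by
    intro h0; rw [h0] at hd; simp at hd
  apply hg
  refine ⟨(Matrix.of x).det⁻¹, ?_⟩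
  field_simp
  linear_combination hd

end H365Orth
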