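import Pool.Agent.H365Orth.Spec

set_option autoImplicit false

namespace H365Orth

open Finset

variable {p : ℕ} [Fact p.Prime]

abbrev Par (p m : ℕ) := (ZMod p)ˣ × (Option (Fin m) → ZMod p)

def cc (g : ZMod p) {m : ℕ} (w : Option (Fin m) → ZMod p) : ZMod p :=
  1 - ∑ j, w j * (D g m (some (some j)) * w j)

/-- the vector of norm one with the given parameters. -/
def φ (g : ZMod p) {m : ℕ} (s : Par p m) : Vec p m
  | none => ((s.1 : ZMod p) + cc g s.2 * ((s.1⁻¹ : (ZMod p)ˣ) : ZMod p)) / 2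
  | some none => (cc g s.2 * ((s.1⁻¹ : (ZMod p)ˣ) : ZMod p) - (s.1 : ZMod p)) / 2
  | some (some j) => s.2 j

theorem B_self (g : ZMod p) (h2 : (2 : ZMod p) ≠ 0) {m : ℕ} (s : Par p m) : B g (φ g s) (φ g s) = 1 := by
  unfold B
  rw [Fintype.sum_option, Fintype.sum_option]
  have h3 : ∑ i : Option (Fin m), φ g s (some (some i)) * (D g m (some (some i)) * φ g s (some (some i))) =
      1 - cc g s.2 := by
    simp only [cc, φ]; ring
  rw [h3]
  simp only [φ, D]
  have hu : (s.1 : ZMod p) * ((s.1⁻¹ : (ZMod p)ˣ) : ZMod p) = 1 := Units.mul_inv _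
  generalize ((s.1⁻¹ : (ZMod p)ˣ) : ZMod p) = v at *
  generalize (s.1 : ZMod p) = u at *
  generalize cc g s.2 = c at *
  field_simp
  linear_combination 4 * c * hu

theorem φ_inj (g : ZMod p) (h2 : (2 : ZMod p) ≠ 0) {m : ℕ} : Function.Injective (φ g : Par p m → Vec p m) := by
  intro s s' h
  have hw : s.2 = s'.2 := by
    funext j
    exact congrFun h (some (some j))
  have h0 := congrFun h none
  have h1 := congrFun h (some none)
  simp only [φ] at h0 h1
  have hu : (s.1 : ZMod p) = s'.1 := by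
    have e : ((s.1 : ZMod p) + cc g s.2 * ((s.1⁻¹ : (ZMod p)ˣ) : ZMod p)) / 2 -
        (cc g s.2 * ((s.1⁻¹ : (ZMod p)ˣ) : ZMod p) - (s.1 : ZMod p)) / 2 = s.1 := by
      field_simp; ring
    have e' : ((s'.1 : ZMod p) + cc g s'.2 * ((s'.1⁻¹ : (ZMod p)ˣ) : ZMod p)) / 2 -
        (cc g s'.2 * ((s'.1⁻¹ : (ZMod p)ˣ) : ZMod p) - (s'.1 : ZMod p)) / 2 = s'.1 := by
      field_simp; ring
    rw [← e, ← e', h0, h1]
  exact Prod.ext (Units.ext hu) hw

theorem unit_sum (b : ZMod p) : ∑ c : (ZMod p)ˣ, ψ p ((c : ZMod p) * b) = (if b = 0 then (p : ℂ) else 0) - 1 := by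
  have h1 := one_sum b
  rw [← add_sum_erase univ _ (mem_univ (0 : ZMod p))] at h1
  have h2 : ∑ c : (ZMod p)ˣ, ψ p ((c : ZMod p) * b) = ∑ a ∈ univ.erase (0 : ZMod p), ψ p (a * b) := by
    refine Finset.sum_bij (fun c _ => (c : ZMod p)) ?_ ?_ ?_ ?_
    · intro c _; exact mem_erase.2 ⟨c.ne_zero, mem_univ _⟩
    · intro c _ d _ h; exact Units.ext h
    · intro a ha
      exact ⟨Units.mk0 a (mem_erase.1 ha).1, mem_univ _, rfl⟩
    · intro c _; rfl
  rw [h2, ← h1]
  simp

theorem spec_ineq (g : ZMod p) (hg : g ≠ 0) (h2 : (2 : ZMod p) ≠ 0) (m : ℕ) (w : Par p m → ℝ) :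
    (∑ s, w s) ^ 2 - 2 * √((p : ℝ) ^ (m + 3)) * ∑ s, w s ^ 2 ≤
      p * ∑ s, ∑ s', if B g (φ g s) (φ g s') = 0 then w s * w s' else 0 := by
  classical
  have hp1 : 1 < p := (Fact.out : p.Prime).one_lt
  have hpR : (0 : ℝ) < (p : ℝ) - 1 := by
    have : (1 : ℝ) < p := by exact_mod_cast hp1
    linarith
  have hcardu : (Fintype.card (ZMod p)ˣ : ℝ) = (p : ℝ) - 1 := by
    rw [ZMod.card_units_eq_totient, Nat.totient_prime Fact.out, Nat.cast_sub hp1.le, Nat.cast_one]
  set θ : Par p m × (ZMod p)ˣ → Vec p m := fun j => (j.2 : ZMod p) • φ g j.1 with hθ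
  set ω : Par p m × (ZMod p)ˣ → ℝ := fun j => w j.1 with hω
  have hb := bilinear_bound g hg m θ ω
  set X : ℝ := ∑ s, ∑ s', if B g (φ g s) (φ g s') = 0 then w s * w s' else 0 with hX
  -- left side
  have hL : ∑ j, ∑ j', ((ω j : ℂ) * (ω j' : ℂ)) * ψ p (B g (θ j) (θ j')) =
      ((((p : ℝ) - 1) * (p * X - (∑ s, w s) ^ 2) : ℝ) : ℂ) := by
    have e1 : ∀ s s' : Par p m, ∑ c : (ZMod p)ˣ, ∑ c' : (ZMod p)ˣ,
        ((w s : ℂ) * (w s' : ℂ)) * ψ p (B g ((c : ZMod p) • φ g s) ((c' : ZMod p) • φ g s')) =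
        ((w s : ℂ) * (w s' : ℂ)) * (((p : ℂ) - 1) * ((if B g (φ g s) (φ g s') = 0 then (p : ℂ) else 0) - 1)) := by
      intro s s'
      have e2 : ∀ c : (ZMod p)ˣ, ∑ c' : (ZMod p)ˣ,
          ((w s : ℂ) * (w s' : ℂ)) * ψ p (B g ((c : ZMod p) • φ g s) ((c' : ZMod p) • φ g s')) =
          ((w s : ℂ) * (w s' : ℂ)) * ((if B g (φ g s) (φ g s') = 0 then (p : ℂ) else 0) - 1) := by
        intro c
        rw [← mul_sum]
        congr 1
        have e3 := unit_sum (p := p) ((c : ZMod p) * B g (φ g s) (φ g s'))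
        have e4 : ((c : ZMod p) * B g (φ g s) (φ g s') = 0) ↔ (B g (φ g s) (φ g s') = 0) := by
          constructor
          · intro h; exact (mul_eq_zero.1 h).resolve_left c.ne_zero
          · intro h; rw [h, mul_zero]
        have e5 : (if (c : ZMod p) * B g (φ g s) (φ g s') = 0 then (p : ℂ) else 0) =
            (if B g (φ g s) (φ g s') = 0 then (p : ℂ) else 0) := by
          by_cases h : B g (φ g s) (φ g s') = 0
          · rw [if_pos h, if_pos (e4.2 h)]
          · rw [if_neg h, if_neg (fun h' => h (e4.1 h'))]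
        rw [e5] at e3
        rw [← e3]
        refine sum_congr rfl (fun c' _ => ?_)
        rw [B_smul]; congr 1; ring
      rw [sum_congr rfl (fun c _ => e2 c), sum_const, card_univ, nsmul_eq_mul]
      have e6 : (Fintype.card (ZMod p)ˣ : ℂ) = (p : ℂ) - 1 := by
        have := congrArg (fun x : ℝ => (x : ℂ)) hcardu
        simpa using this
      rw [e6]; ring
    have e7 : ∑ j, ∑ j', ((ω j : ℂ) * (ω j' : ℂ)) * ψ p (B g (θ j) (θ j')) =
        ∑ s : Par p m, ∑ s' : Par p m, ∑ c : (ZMod p)ˣ, ∑ c' : (ZMod p)ˣ,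
        ((w s : ℂ) * (w s' : ℂ)) * ψ p (B g ((c : ZMod p) • φ g s) ((c' : ZMod p) • φ g s')) := by
      rw [Fintype.sum_prod_type]
      refine sum_congr rfl (fun s _ => ?_)
      refine (sum_congr rfl (fun c _ => Fintype.sum_prod_type _)).trans ?_
      rw [sum_comm]
    rw [e7, sum_congr rfl (fun s _ => sum_congr rfl (fun s' _ => e1 s s'))]
    rw [hX, sq, sum_mul_sum]
    push_cast
    simp only [mul_sub, mul_sum]
    rw [← sum_sub_distrib]
    refine sum_congr rfl (fun s _ => ?_)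
    rw [← sum_sub_distrib]
    refine sum_congr rfl (fun s' _ => ?_)
    split_ifs <;> push_cast <;> ring
  -- right side
  have hR : ∑ j, ∑ j', (if θ j = θ j' then ω j * ω j' else 0) ≤ 2 * (((p : ℝ) - 1) * ∑ s, w s ^ 2) := by
    have hfib : ∀ j : Par p m × (ZMod p)ˣ, ((univ.filter (fun j' => θ j = θ j')).card : ℝ) ≤ 2 := by
      rintro ⟨s, c⟩
      have : (univ.filter (fun j' => θ (s, c) = θ j')).card ≤ ({(c : ZMod p), -(c : ZMod p)} : Finset (ZMod p)).card := by
        refine card_le_card_of_injOn (fun j' => (j'.2 : ZMod p)) ?_ ?_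
        · rintro ⟨s', c'⟩ h
          simp only [coe_filter, mem_univ, true_and, Set.mem_setOf_eq, hθ] at h
          have h3 := congrArg (fun v => B g v v) h
          simp only [B_smul, B_self g h2, mul_one] at h3
          rw [Finset.mem_coe, mem_insert, mem_singleton]
          exact mul_self_eq_mul_self_iff.1 h3.symm
        · rintro ⟨s', c'⟩ h ⟨s'', c''⟩ h' heq
          simp only [coe_filter, mem_univ, true_and, Set.mem_setOf_eq, hθ] at h h'
          have hc : c' = c'' := Units.ext heq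
          subst hc
          have h4 : (c' : ZMod p) • φ g s' = (c' : ZMod p) • φ g s'' := h.symm.trans h'
          have h5 : φ g s' = φ g s'' := funext fun i => mul_left_cancel₀ c'.ne_zero (congrFun h4 i)
          rw [φ_inj g h2 h5]
      have h6 := this.trans (card_le_two)
      exact_mod_cast h6
    calc ∑ j, ∑ j', (if θ j = θ j' then ω j * ω j' else 0)
        ≤ ∑ j, ∑ j', ((if θ j = θ j' then ω j ^ 2 / 2 else 0) + (if θ j = θ j' then ω j' ^ 2 / 2 else 0)) := by
          refine sum_le_sum (fun j _ => sum_le_sum (fun j' _ => ?_))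
          split_ifs
          · nlinarith [sq_nonneg (ω j - ω j')]
          · norm_num
      _ = ∑ j, ∑ j', (if θ j = θ j' then ω j ^ 2 / 2 else 0) + ∑ j, ∑ j', (if θ j = θ j' then ω j' ^ 2 / 2 else 0) := by
          simp only [sum_add_distrib]
      _ = ∑ j, ∑ j', (if θ j = θ j' then ω j ^ 2 / 2 else 0) + ∑ j, ∑ j', (if θ j = θ j' then ω j ^ 2 / 2 else 0) := by
          congr 1
          rw [sum_comm]
          refine sum_congr rfl (fun j _ => sum_congr rfl (fun j' _ => ?_))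
          by_cases h : θ j = θ j'
          · rw [if_pos h, if_pos h.symm]
          · rw [if_neg h, if_neg (Ne.symm h)]
      _ = ∑ j, ω j ^ 2 * ((univ.filter (fun j' => θ j = θ j')).card : ℝ) := by
          rw [← sum_add_distrib]
          refine sum_congr rfl (fun j _ => ?_)
          rw [← sum_filter, sum_const, nsmul_eq_mul]; ring
      _ ≤ ∑ j, ω j ^ 2 * 2 := sum_le_sum (fun j _ => mul_le_mul_of_nonneg_left (hfib j) (sq_nonneg _))
      _ = 2 * (((p : ℝ) - 1) * ∑ s, w s ^ 2) := by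
          rw [Fintype.sum_prod_type]
          simp only [hω, sum_const, card_univ, nsmul_eq_mul, hcardu]
          rw [mul_sum, mul_sum]
          exact sum_congr rfl (fun s _ => by ring)
  rw [hL, Complex.norm_real, Real.norm_eq_abs] at hb
  have h7 := neg_le_of_abs_le hb
  have h8 : √((p : ℝ) ^ (m + 3)) * ∑ j, ∑ j', (if θ j = θ j' then ω j * ω j' else 0) ≤
      √((p : ℝ) ^ (m + 3)) * (2 * (((p : ℝ) - 1) * ∑ s, w s ^ 2)) :=
    mul_le_mul_of_nonneg_left hR (Real.sqrt_nonneg _)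
  have h9 : ((p : ℝ) - 1) * ((∑ s, w s) ^ 2 - 2 * √((p : ℝ) ^ (m + 3)) * ∑ s, w s ^ 2) ≤ ((p : ℝ) - 1) * (p * X) := by
    nlinarith
  exact le_of_mul_le_mul_left h9 hpR

end H365Orth
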