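import Mathlib

set_option autoImplicit false

namespace H365Orth

open Finset

variable {p : ℕ} [Fact p.Prime]

/-- coordinates: three special ones and `m` others. -/
abbrev Ix (m : ℕ) := Option (Option (Option (Fin m)))

abbrev Vec (p m : ℕ) := Ix m → ZMod p

/-- coefficients of the diagonal form. -/
def D (g : ZMod p) (m : ℕ) : Ix m → ZMod p
  | none => 1
  | some none => -1
  | some (some none) => -g
  | some (some (some _)) => 1

def B (g : ZMod p) {m : ℕ} (x y : Vec p m) : ZMod p := ∑ i, x i * (D g m i * y i)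

theorem D_ne (g : ZMod p) (hg : g ≠ 0) (m : ℕ) (i : Ix m) : D g m i ≠ 0 := by
  rcases i with _ | _ | _ | _ <;> simp [D, hg]

theorem B_comm (g : ZMod p) {m : ℕ} (x y : Vec p m) : B g x y = B g y x := by
  unfold B; exact sum_congr rfl (fun i _ => by ring)

theorem B_smul (g : ZMod p) {m : ℕ} (c d : ZMod p) (x y : Vec p m) :
    B g (c • x) (d • y) = c * d * B g x y := by
  unfold B; rw [mul_sum]
  exact sum_congr rfl (fun i _ => by simp only [Pi.smul_apply, smul_eq_mul]; ring)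

theorem B_sub (g : ZMod p) {m : ℕ} (x y z : Vec p m) : B g x (y - z) = B g x y - B g x z := by
  unfold B; rw [← sum_sub_distrib]
  exact sum_congr rfl (fun i _ => by simp only [Pi.sub_apply]; ring)

/-- the standard additive character. -/
noncomputable abbrev ψ (p : ℕ) [Fact p.Prime] : AddChar (ZMod p) ℂ := ZMod.stdAddChar

theorem one_sum (b : ZMod p) : ∑ a : ZMod p, ψ p (a * b) = if b = 0 then (p : ℂ) else 0 := by
  have := AddChar.sum_mulShift b (ZMod.isPrimitive_stdAddChar p)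
  rw [this, ZMod.card]
  split_ifs <;> simp

theorem map_sum' {ι : Type} (s : Finset ι) (f : ι → ZMod p) : ψ p (∑ i ∈ s, f i) = ∏ i ∈ s, ψ p (f i) := by
  classical
  induction s using Finset.induction_on with
  | empty => simp
  | insert a s ha ih => rw [sum_insert ha, prod_insert ha, AddChar.map_add_eq_mul, ih]

theorem char_sum (g : ZMod p) (hg : g ≠ 0) (m : ℕ) (v : Vec p m) :
    ∑ x : Vec p m, ψ p (B g x v) = if v = 0 then (p : ℂ) ^ (m + 3) else 0 := by
  have h1 : ∀ x : Vec p m, ψ p (B g x v) = ∏ i, ψ p (x i * (D g m i * v i)) := by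
    intro x; unfold B; rw [map_sum']
  simp_rw [h1]
  have h2 := (Finset.prod_univ_sum (fun _ : Ix m => (univ : Finset (ZMod p)))
    (fun i a => ψ p (a * (D g m i * v i)))).symm
  rw [Fintype.piFinset_univ] at h2
  rw [h2]
  simp_rw [one_sum]
  by_cases hv : v = 0
  · subst hv
    simp [Fintype.card_option]
  · rw [if_neg hv]
    obtain ⟨i, hi⟩ : ∃ i, v i ≠ 0 := by
      by_contra hcon; push Not at hcon; exact hv (funext hcon)
    refine prod_eq_zero (mem_univ i) ?_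
    rw [if_neg (mul_ne_zero (D_ne g hg m i) hi)]

theorem plancherel (g : ZMod p) (hg : g ≠ 0) (m : ℕ) (W : Vec p m → ℝ) :
    ∑ x : Vec p m, ‖∑ y : Vec p m, (W y : ℂ) * ψ p (B g x y)‖ ^ 2 = (p : ℝ) ^ (m + 3) * ∑ y, W y ^ 2 := by
  have h1 : ∀ x : Vec p m, ((‖∑ y : Vec p m, (W y : ℂ) * ψ p (B g x y)‖ ^ 2 : ℝ) : ℂ) =
      ∑ y : Vec p m, ∑ z : Vec p m, (W y : ℂ) * (W z : ℂ) * ψ p (B g x (y - z)) := by
    intro x
    rw [Complex.ofReal_pow, ← Complex.conj_mul', map_sum, sum_mul_sum, sum_comm]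
    refine sum_congr rfl (fun y _ => sum_congr rfl (fun z _ => ?_))
    rw [map_mul, Complex.conj_ofReal, B_sub, AddChar.map_sub_eq_div, ← AddChar.map_neg_eq_conj,
      AddChar.map_neg_eq_inv]
    rw [div_eq_mul_inv]; ring
  have h2 : ((∑ x : Vec p m, ‖∑ y : Vec p m, (W y : ℂ) * ψ p (B g x y)‖ ^ 2 : ℝ) : ℂ) =
      (((p : ℝ) ^ (m + 3) * ∑ y, W y ^ 2 : ℝ) : ℂ) := by
    rw [Complex.ofReal_sum]
    have h0 : ∑ x : Vec p m, ((‖∑ y : Vec p m, (W y : ℂ) * ψ p (B g x y)‖ ^ 2 : ℝ) : ℂ) =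
        ∑ y : Vec p m, ∑ z : Vec p m, ∑ x : Vec p m, (W y : ℂ) * (W z : ℂ) * ψ p (B g x (y - z)) := by
      rw [sum_congr rfl (fun x _ => h1 x), sum_comm]
      exact sum_congr rfl (fun y _ => sum_comm)
    rw [h0]
    have h3 : ∀ y z : Vec p m, ∑ x : Vec p m, (W y : ℂ) * (W z : ℂ) * ψ p (B g x (y - z)) =
        if y = z then (p : ℂ) ^ (m + 3) * ((W y : ℂ) * (W z : ℂ)) else 0 := by
      intro y z
      rw [← mul_sum, char_sum g hg]
      by_cases hyz : y = z
      · rw [if_pos (sub_eq_zero.2 hyz), if_pos hyz]; ring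
      · rw [if_neg (fun h => hyz (sub_eq_zero.1 h)), if_neg hyz, mul_zero]
    simp_rw [h3]
    push_cast
    rw [mul_sum]
    refine sum_congr rfl (fun y _ => ?_)
    rw [sum_ite_eq, if_pos (mem_univ _)]; ring
  exact_mod_cast h2

theorem bilinear_bound (g : ZMod p) (hg : g ≠ 0) (m : ℕ) {J : Type} [Fintype J] [DecidableEq J]
    (θ : J → Vec p m) (ω : J → ℝ) :
    ‖∑ j, ∑ j', ((ω j : ℂ) * (ω j' : ℂ)) * ψ p (B g (θ j) (θ j'))‖ ≤
      √((p : ℝ) ^ (m + 3)) * ∑ j, ∑ j', if θ j = θ j' then ω j * ω j' else 0 := by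
  set W : Vec p m → ℝ := fun y => ∑ j, if θ j = y then ω j else 0 with hW
  have hgen : ∀ F : Vec p m → ℂ, ∑ j, (ω j : ℂ) * F (θ j) = ∑ y, (W y : ℂ) * F y := by
    intro F
    simp only [hW]
    push_cast
    simp_rw [sum_mul]
    rw [sum_comm]
    refine sum_congr rfl (fun j _ => ?_)
    rw [Finset.sum_eq_single (θ j)]
    · simp
    · intro b _ hb; rw [if_neg (Ne.symm hb)]; simp
    · intro h; exact absurd (mem_univ _) h
  have h1 : ∑ j, ∑ j', ((ω j : ℂ) * (ω j' : ℂ)) * ψ p (B g (θ j) (θ j')) =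
      ∑ x, (W x : ℂ) * ∑ y, (W y : ℂ) * ψ p (B g x y) := by
    rw [← hgen (fun x => ∑ y, (W y : ℂ) * ψ p (B g x y))]
    refine sum_congr rfl (fun j _ => ?_)
    rw [← hgen (fun y => ψ p (B g (θ j) y)), mul_sum]
    exact sum_congr rfl (fun j' _ => by ring)
  have h2 : ∑ j, ∑ j', (if θ j = θ j' then ω j * ω j' else 0) = ∑ y, W y ^ 2 := by
    have h3 : ∀ y, W y ^ 2 = ∑ j, ∑ j', (if θ j = y then ω j else 0) * (if θ j' = y then ω j' else 0) := by
      intro y; rw [sq]; simp only [hW]; rw [sum_mul_sum]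
    simp_rw [h3]
    rw [sum_comm]
    rw [sum_comm (s := (univ : Finset (Vec p m))) (t := (univ : Finset J))]
    rw [sum_comm]
    refine sum_congr rfl (fun j _ => ?_)
    rw [sum_comm]
    refine sum_congr rfl (fun j' _ => ?_)
    rw [Finset.sum_eq_single (θ j)]
    · by_cases h : θ j = θ j'
      · simp [h]
      · simp [h, Ne.symm h]
    · intro b _ hb; rw [if_neg (Ne.symm hb)]; simp
    · intro h; exact absurd (mem_univ _) h
  rw [h1, h2]
  have h4 : ‖∑ x, (W x : ℂ) * ∑ y, (W y : ℂ) * ψ p (B g x y)‖ ≤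
      ∑ x, |W x| * ‖∑ y, (W y : ℂ) * ψ p (B g x y)‖ := by
    refine (norm_sum_le _ _).trans (le_of_eq ?_)
    refine sum_congr rfl (fun x _ => ?_)
    rw [norm_mul, Complex.norm_real, Real.norm_eq_abs]
  refine h4.trans ?_
  refine (Real.sum_mul_le_sqrt_mul_sqrt _ _ _).trans ?_
  rw [plancherel g hg]
  have h5 : ∑ x, |W x| ^ 2 = ∑ x, W x ^ 2 := sum_congr rfl (fun x _ => sq_abs _)
  rw [h5, Real.sqrt_mul (by positivity)]
  have h6 : 0 ≤ ∑ x, W x ^ 2 := sum_nonneg (fun _ _ => sq_nonneg _)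
  calc √(∑ x, W x ^ 2) * (√((p : ℝ) ^ (m + 3)) * √(∑ x, W x ^ 2)) =
      √((p : ℝ) ^ (m + 3)) * (√(∑ x, W x ^ 2) * √(∑ x, W x ^ 2)) := by ring
    _ ≤ _ := by rw [Real.mul_self_sqrt h6]

end H365Orth
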