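import Pool.Agent.H365Orth.Gram

set_option autoImplicit false

namespace H365Orth

open Finset Matrix

variable {p : ℕ} [Fact p.Prime]

/-- adjacency (orthogonality in `𝔽_p^k`) between parameters, `0` for padding elements. -/
def adj (g : ZMod p) {m r : ℕ} : Par p m ⊕ Fin r → Par p m ⊕ Fin r → ℝ
  | Sum.inl s, Sum.inl s' => if B g (φ g s) (φ g s') = 0 then 1 else 0
  | _, _ => 0

theorem adj_comm (g : ZMod p) {m r : ℕ} (i j : Par p m ⊕ Fin r) : adj g i j = adj g j i := by
  rcases i with s | a <;> rcases j with s' | b <;> simp [adj, B_comm g]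

theorem quad (g : ZMod p) {m r : ℕ} (μ : ℝ) (x : Par p m ⊕ Fin r → ℝ) :
    ∑ i, ∑ j, x i * (((if i = j then 1 else 0) + μ * adj g i j) * x j) =
      ∑ i, x i ^ 2 + μ * ∑ s, ∑ s', if B g (φ g s) (φ g s') = 0 then x (Sum.inl s) * x (Sum.inl s') else 0 := by
  have h1 : ∀ i j, x i * (((if i = j then (1:ℝ) else 0) + μ * adj g i j) * x j) =
      (if i = j then x i * x j else 0) + μ * (x i * adj g i j * x j) := by
    intro i j
    split_ifs <;> ring
  simp_rw [h1, sum_add_distrib]
  congr 1
  · refine sum_congr rfl (fun i _ => ?_)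
    rw [sum_ite_eq, if_pos (mem_univ _), sq]
  · simp_rw [← mul_sum]
    congr 1
    rw [Fintype.sum_sum_type]
    have h2 : ∑ a : Fin r, ∑ j, x (Sum.inr a) * adj g (Sum.inr a : Par p m ⊕ Fin r) j * x j = 0 := by
      refine sum_eq_zero (fun a _ => sum_eq_zero (fun j _ => ?_))
      simp [adj]
    rw [h2, add_zero]
    refine sum_congr rfl (fun s _ => ?_)
    rw [Fintype.sum_sum_type]
    have h3 : ∑ a : Fin r, x (Sum.inl s) * adj g (Sum.inl s : Par p m ⊕ Fin r) (Sum.inr a) * x (Sum.inr a) = 0 := by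
      refine sum_eq_zero (fun a _ => ?_)
      simp [adj]
    rw [h3, add_zero]
    refine sum_congr rfl (fun s' _ => ?_)
    simp only [adj]
    split_ifs <;> ring

theorem exists_vectors (g : ZMod p) (hgs : ¬ IsSquare g) (h2 : (2 : ZMod p) ≠ 0) (m n : ℕ)
    (hn : Fintype.card (Par p m) ≤ n) :
    ∃ v : Fin n → EuclideanSpace ℝ (Fin n), (∀ i, ‖v i‖ = 1) ∧
      (∀ K : Finset (Fin n), K.card = m + 3 → ∃ i ∈ K, ∃ j ∈ K, i ≠ j ∧ inner ℝ (v i) (v j) = 0) ∧
      (Fintype.card (Par p m) : ℝ) ^ 2 ≤ 2 * √((p : ℝ) ^ (m + 3)) * ‖∑ i, v i‖ ^ 2 := by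
  classical
  have hg : g ≠ 0 := by rintro rfl; exact hgs (IsSquare.zero)
  have hp : (0 : ℝ) < p := by exact_mod_cast (Fact.out : p.Prime).pos
  set L : ℝ := 2 * √((p : ℝ) ^ (m + 3)) with hL
  have hLpos : 0 < L := by positivity
  set r : ℕ := n - Fintype.card (Par p m) with hr
  have hcardI : Fintype.card (Par p m ⊕ Fin r) = n := by
    rw [Fintype.card_sum, Fintype.card_fin]; omega
  obtain e : Fin n ≃ (Par p m ⊕ Fin r) := Fintype.equivOfCardEq (by rw [Fintype.card_fin, hcardI])
  set μ : ℝ := p / L with hμ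
  have hμpos : 0 < μ := by positivity
  set M : Matrix (Par p m ⊕ Fin r) (Par p m ⊕ Fin r) ℝ :=
    Matrix.of fun i j => (if i = j then 1 else 0) + μ * adj g i j with hM
  have hMpsd : M.PosSemidef := by
    refine Matrix.PosSemidef.of_dotProduct_mulVec_nonneg ?_ ?_
    · ext i j
      rw [Matrix.conjTranspose_apply]
      simp only [hM, Matrix.of_apply, star_trivial]
      rw [adj_comm g j i]
      by_cases h : i = j
      · rw [if_pos h, if_pos h.symm]
      · rw [if_neg h, if_neg (Ne.symm h)]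
    · intro x
      have e1 : star x ⬝ᵥ (M *ᵥ x) = ∑ i, ∑ j, x i * (((if i = j then 1 else 0) + μ * adj g i j) * x j) := by
        simp only [dotProduct, Matrix.mulVec, hM, Matrix.of_apply, Pi.star_apply, star_trivial, mul_sum]
      rw [e1, quad]
      have h3 := spec_ineq g hg h2 m (fun s => x (Sum.inl s))
      have h4 : ∑ s : Par p m, x (Sum.inl s) ^ 2 ≤ ∑ i, x i ^ 2 := by
        rw [Fintype.sum_sum_type (fun i => x i ^ 2)]
        have : 0 ≤ ∑ a : Fin r, x (Sum.inr a) ^ 2 := sum_nonneg (fun _ _ => sq_nonneg _)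
        linarith
      rw [← hL] at h3
      set X := ∑ s : Par p m, ∑ s' : Par p m, if B g (φ g s) (φ g s') = 0 then x (Sum.inl s) * x (Sum.inl s') else 0 with hX
      have h5 : -(L * ∑ s : Par p m, x (Sum.inl s) ^ 2) ≤ p * X := by
        have := sq_nonneg (∑ s : Par p m, x (Sum.inl s))
        linarith
      have h6 : -(∑ s : Par p m, x (Sum.inl s) ^ 2) ≤ μ * X := by
        rw [hμ, div_mul_eq_mul_div, le_div_iff₀ hLpos]
        linarith
      linarith
  have hMpsd' : (M.submatrix e e).PosSemidef := hMpsd.submatrix e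
  obtain ⟨v, hv⟩ := exists_gram _ hMpsd'
  have hdiag : ∀ i, M i i = 1 := by
    intro i
    simp only [hM, Matrix.of_apply, if_true]
    have : adj g i i = 0 := by
      rcases i with s | a
      · simp only [adj]; rw [if_neg]; rw [B_self g h2]; exact one_ne_zero
      · simp [adj]
    rw [this]; ring
  refine ⟨v, fun i => ?_, ?_, ?_⟩
  · have h3 := hv i i
    rw [Matrix.submatrix_apply, hdiag, real_inner_self_eq_norm_sq] at h3
    have h4 : 0 ≤ ‖v i‖ := norm_nonneg _
    nlinarith
  · intro K hK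
    by_contra hcon
    push Not at hcon
    -- all pairs are adjacent
    have hadj : ∀ i ∈ K, ∀ j ∈ K, i ≠ j → ∃ s s' : Par p m, e i = Sum.inl s ∧ e j = Sum.inl s' ∧
        B g (φ g s) (φ g s') = 0 := by
      intro i hi j hj hij
      have h3 := hcon i hi j hj hij
      rw [hv, Matrix.submatrix_apply] at h3
      simp only [hM, Matrix.of_apply] at h3
      rw [if_neg (fun h => hij (e.injective h)), zero_add] at h3
      rcases hi' : e i with s | a
      · rcases hj' : e j with s' | b
        · refine ⟨s, s', rfl, rfl, ?_⟩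
          by_contra hB
          apply h3
          rw [hi', hj']
          simp [adj, hB]
        · exfalso; apply h3; rw [hi', hj']; simp [adj]
      · exfalso; apply h3; rw [hi']; simp [adj]
    have hcardIx : Fintype.card (Ix m) = K.card := by
      rw [hK]; simp [Fintype.card_option]
    obtain f : Ix m ≃ K := Fintype.equivOfCardEq (by rw [hcardIx, Fintype.card_coe])
    -- every member of K is a parameter
    have hpar : ∀ i : K, ∃ s : Par p m, e i = Sum.inl s := by
      intro i
      obtain ⟨j, hj, hij⟩ : ∃ j ∈ K, j ≠ (i : Fin n) :=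
        Finset.exists_mem_ne (by rw [hK]; omega) _
      obtain ⟨s, s', h3, -, -⟩ := hadj i i.2 j hj (Ne.symm hij)
      exact ⟨s, h3⟩
    choose σ hσ using hpar
    refine no_clique g hgs (fun a => φ g (σ (f a))) (fun a => B_self g h2 _) (fun a b hab => ?_)
    have hne : ((f a : K) : Fin n) ≠ (f b : K) := fun h => hab (f.injective (Subtype.ext h))
    obtain ⟨s, s', h3, h4, h5⟩ := hadj (f a) (f a).2 (f b) (f b).2 hne
    have h6 : s = σ (f a) := Sum.inl_injective (h3.symm.trans (hσ (f a)))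
    have h7 : s' = σ (f b) := Sum.inl_injective (h4.symm.trans (hσ (f b)))
    rw [← h6, ← h7]; exact h5
  · have h3 : ‖∑ i, v i‖ ^ 2 = ∑ i, ∑ j, M i j := by
      rw [← real_inner_self_eq_norm_sq, sum_inner]
      simp_rw [inner_sum, hv, Matrix.submatrix_apply]
      rw [← Equiv.sum_comp e (fun i => ∑ j, M i j)]
      refine sum_congr rfl (fun i _ => ?_)
      exact Equiv.sum_comp e (fun j => M (e i) j)
    have h4 := quad g (r := r) (m := m) μ (fun _ => (1 : ℝ))
    have h5 : ∑ i, ∑ j, M i j = ∑ i : Par p m ⊕ Fin r, ∑ j, (1:ℝ) * (((if i = j then 1 else 0) + μ * adj g i j) * 1) := by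
      simp only [hM, Matrix.of_apply, one_mul, mul_one]
    rw [h3, h5, h4]
    have h6 := spec_ineq g hg h2 m (fun _ => (1 : ℝ))
    simp only [sum_const, card_univ, nsmul_eq_mul, mul_one, one_pow] at h6 ⊢
    rw [← hL] at h6
    set X := ∑ s : Par p m, ∑ s' : Par p m, if B g (φ g s) (φ g s') = 0 then (1 : ℝ) else 0 with hX
    have h7 : L * ((Fintype.card (Par p m ⊕ Fin r) : ℝ) + μ * X) =
        L * (Fintype.card (Par p m ⊕ Fin r) : ℝ) + p * X := by
      rw [hμ]; field_simp
    rw [h7]
    have h8 : (Fintype.card (Par p m) : ℝ) ≤ (Fintype.card (Par p m ⊕ Fin r) : ℝ) := by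
      rw [hcardI]; exact_mod_cast hn
    have h9 : L * (Fintype.card (Par p m) : ℝ) ≤ L * (Fintype.card (Par p m ⊕ Fin r) : ℝ) :=
      mul_le_mul_of_nonneg_left h8 hLpos.le
    linarith

end H365Orth
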